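import Mathlib

set_option autoImplicit false

/-!
# `∑_{n ≤ y} (log n - τ(n) + 2γ) = O(√y)`
-/

open Finset Filter

namespace Pool.Agent.PNTheta

/-- the pairs `(a, b)` with `a b ≤ y` -/
def pairs (y : ℕ) : Finset (ℕ × ℕ) := (Ioc 0 y ×ˢ Ioc 0 y).filter fun q => q.1 * q.2 ≤ y

theorem mem_pairs {y : ℕ} {q : ℕ × ℕ} : q ∈ pairs y ↔ 0 < q.1 ∧ 0 < q.2 ∧ q.1 * q.2 ≤ y := by
  unfold pairs
  rw [mem_filter, mem_product, mem_Ioc, mem_Ioc]
  constructor
  · rintro ⟨⟨h1, h2⟩, h3⟩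
    exact ⟨h1.1, h2.1, h3⟩
  · rintro ⟨h1, h2, h3⟩
    refine ⟨⟨⟨h1, ?_⟩, ⟨h2, ?_⟩⟩, h3⟩
    · exact (Nat.le_mul_of_pos_right _ h2).trans h3
    · exact (Nat.le_mul_of_pos_left _ h1).trans h3

theorem card_pairs_left (y s : ℕ) (hs : s ≤ y) :
    ((pairs y).filter fun q => q.1 ≤ s).card = ∑ a ∈ Ioc 0 s, y / a := by
  rw [card_eq_sum_card_fiberwise (f := fun q : ℕ × ℕ => q.1) (t := Ioc 0 s)]
  · refine sum_congr rfl fun a ha => ?_
    rw [mem_Ioc] at ha
    have : ((pairs y).filter fun q => q.1 ≤ s).filter (fun q => q.1 = a)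
        = (Ioc 0 (y / a)).map ⟨fun b => (a, b), fun b b' h => (Prod.mk.inj h).2⟩ := by
      ext ⟨u, v⟩
      rw [mem_filter, mem_filter, mem_pairs, Finset.mem_map]
      simp only [mem_Ioc]
      constructor
      · rintro ⟨⟨⟨h1, h2, h3⟩, h4⟩, rfl⟩
        exact ⟨v, ⟨h2, (Nat.le_div_iff_mul_le h1).2 (by linarith)⟩, rfl⟩
      · rintro ⟨b, ⟨hb1, hb2⟩, h⟩
        obtain ⟨rfl, rfl⟩ := Prod.mk.inj h
        refine ⟨⟨⟨ha.1, hb1, ?_⟩, ha.2⟩, rfl⟩
        have := (Nat.le_div_iff_mul_le ha.1).1 hb2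
        linarith
    rw [this, card_map, Nat.card_Ioc, Nat.sub_zero]
  · intro q hq
    rw [mem_coe, mem_filter, mem_pairs] at hq
    rw [mem_coe, mem_Ioc]
    exact ⟨hq.1.1, hq.2⟩

theorem card_pairs_right (y s : ℕ) (hs : s ≤ y) :
    ((pairs y).filter fun q => q.2 ≤ s).card = ∑ a ∈ Ioc 0 s, y / a := by
  rw [← card_pairs_left y s hs]
  apply card_bij (fun q _ => (q.2, q.1))
  · intro q hq
    rw [mem_filter, mem_pairs] at hq ⊢
    exact ⟨⟨hq.1.2.1, hq.1.1, by rw [mul_comm]; exact hq.1.2.2⟩, hq.2⟩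
  · intro q _ q' _ h
    rw [Prod.mk.injEq] at h
    exact Prod.ext h.2 h.1
  · intro q hq
    rw [mem_filter, mem_pairs] at hq
    refine ⟨(q.2, q.1), ?_, rfl⟩
    rw [mem_filter, mem_pairs]
    exact ⟨⟨hq.1.2.1, hq.1.1, by rw [mul_comm]; exact hq.1.2.2⟩, hq.2⟩

theorem hyperbola (y : ℕ) :
    (∑ a ∈ Ioc 0 y, y / a) + (Nat.sqrt y) ^ 2 = 2 * ∑ a ∈ Ioc 0 (Nat.sqrt y), y / a := by
  set s := Nat.sqrt y with hs
  have hsy : s ≤ y := Nat.sqrt_le_self y
  have hs2 : s * s ≤ y := Nat.sqrt_le y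
  have hs3 : y < (s + 1) * (s + 1) := Nat.lt_succ_sqrt y
  have h1 : (pairs y).card = ∑ a ∈ Ioc 0 y, y / a := by
    rw [← card_pairs_left y y le_rfl]
    congr 1
    ext q
    rw [mem_filter, mem_pairs]
    constructor
    · intro h
      exact ⟨h, (Nat.le_mul_of_pos_right _ h.2.1).trans h.2.2⟩
    · intro h
      exact h.1
  have h2 : ((pairs y).filter fun q => q.1 ≤ s) ∪ ((pairs y).filter fun q => q.2 ≤ s) = pairs y := by
    ext q
    rw [mem_union, mem_filter, mem_filter]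
    constructor
    · rintro (h | h)
      · exact h.1
      · exact h.1
    · intro h
      by_cases hq : q.1 ≤ s
      · exact Or.inl ⟨h, hq⟩
      · refine Or.inr ⟨h, ?_⟩
        by_contra hq2
        push Not at hq hq2
        have := Nat.mul_le_mul hq hq2
        have := (mem_pairs.1 h).2.2
        simp only [Nat.succ_eq_add_one] at *
        omega
  have h3 : ((pairs y).filter fun q => q.1 ≤ s) ∩ ((pairs y).filter fun q => q.2 ≤ s)
      = Ioc 0 s ×ˢ Ioc 0 s := by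
    ext q
    rw [mem_inter, mem_filter, mem_filter, mem_product, mem_Ioc, mem_Ioc, mem_pairs]
    constructor
    · rintro ⟨⟨h, h'⟩, ⟨_, h''⟩⟩
      exact ⟨⟨h.1, h'⟩, ⟨h.2.1, h''⟩⟩
    · rintro ⟨⟨h, h'⟩, ⟨h'', h'''⟩⟩
      have := Nat.mul_le_mul h' h'''
      exact ⟨⟨⟨h, h'', by omega⟩, h'⟩, ⟨⟨h, h'', by omega⟩, h'''⟩⟩
  have h4 := card_union_add_card_inter ((pairs y).filter fun q => q.1 ≤ s)
    ((pairs y).filter fun q => q.2 ≤ s)
  rw [h2, h3, card_product, Nat.card_Ioc, card_pairs_left y s hsy, card_pairs_right y s hsy, h1] at h4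
  rw [sq]
  simp only [Nat.sub_zero] at h4
  omega

/-- `γ` -/
noncomputable abbrev gam : ℝ := Real.eulerMascheroniConstant

theorem harm_bound (s : ℕ) (hs : 1 ≤ s) :
    |(∑ a ∈ Ioc 0 s, (1 : ℝ) / a) - Real.log s - gam| ≤ 1 / s := by
  have e : ((harmonic s : ℚ) : ℝ) = ∑ a ∈ Ioc 0 s, (1 : ℝ) / a := by
    rw [harmonic_eq_sum_Icc]
    push_cast
    have : Ioc 0 s = Icc 1 s := by ext; simp [Nat.succ_le_iff]
    rw [this]
    refine sum_congr rfl fun a _ => ?_
    rw [one_div]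
  have h1 := Real.eulerMascheroniSeq_lt_eulerMascheroniConstant s
  have h2 := Real.eulerMascheroniConstant_lt_eulerMascheroniSeq' s
  unfold Real.eulerMascheroniSeq at h1
  unfold Real.eulerMascheroniSeq' at h2
  rw [if_neg (by omega)] at h2
  rw [e] at h1 h2
  have hs0 : (0 : ℝ) < s := by exact_mod_cast hs
  have h3 : Real.log (s + 1) - Real.log s ≤ 1 / s := by
    rw [← Real.log_div (by positivity) hs0.ne']
    have : ((s : ℝ) + 1) / s = 1 + 1 / s := by field_simp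
    rw [this]
    have := Real.log_le_sub_one_of_pos (show (0 : ℝ) < 1 + 1 / s by positivity)
    linarith
  rw [abs_le]
  constructor <;> linarith [show (0 : ℝ) ≤ 1 / s by positivity]

theorem log_fact_bound (y : ℕ) (hy : 1 ≤ y) :
    |(∑ b ∈ Ioc 0 y, Real.log b) - (y * Real.log y - y)| ≤ 1 + Real.log y := by
  have h : ∀ y : ℕ, 1 ≤ y → y * Real.log y - y ≤ ∑ b ∈ Ioc 0 y, Real.log b ∧
      ∑ b ∈ Ioc 0 y, Real.log b ≤ y * Real.log y - y + 1 + Real.log y := by
    intro y hy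
    induction y, hy using Nat.le_induction with
    | base => norm_num
    | succ n hn ih =>
      have e : Ioc 0 (n + 1) = insert (n + 1) (Ioc 0 n) := by ext; simp; omega
      rw [e, sum_insert (by simp)]
      have hn0 : (0 : ℝ) < n := by exact_mod_cast hn
      have h1 : Real.log ((n + 1 : ℕ) : ℝ) - Real.log n ≤ 1 / n := by
        push_cast
        rw [← Real.log_div (by positivity) hn0.ne']
        have : ((n : ℝ) + 1) / n = 1 + 1 / n := by field_simp
        rw [this]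
        have := Real.log_le_sub_one_of_pos (show (0 : ℝ) < 1 + 1 / n by positivity)
        linarith
      have h2 : 1 / ((n : ℝ) + 1) ≤ Real.log ((n + 1 : ℕ) : ℝ) - Real.log n := by
        push_cast
        rw [← Real.log_div (by positivity) hn0.ne', ← neg_le_neg_iff, ← Real.log_inv]
        have : (((n : ℝ) + 1) / n)⁻¹ = 1 - 1 / (n + 1) := by field_simp; ring
        rw [this]
        have := Real.log_le_sub_one_of_pos (show (0 : ℝ) < 1 - 1 / (n + 1) by
          rw [sub_pos, div_lt_one (by positivity)]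
          linarith)
        linarith
      have h3 : (n : ℝ) * (Real.log ((n + 1 : ℕ) : ℝ) - Real.log n) ≤ 1 := by
        calc _ ≤ (n : ℝ) * (1 / n) := by gcongr
          _ = 1 := by field_simp
      have h4 : 1 ≤ ((n : ℝ) + 1) * (Real.log ((n + 1 : ℕ) : ℝ) - Real.log n) := by
        calc (1 : ℝ) = ((n : ℝ) + 1) * (1 / ((n : ℝ) + 1)) := by field_simp
          _ ≤ _ := by gcongr
      obtain ⟨ih1, ih2⟩ := ih
      have e1 : ((n + 1 : ℕ) : ℝ) = (n : ℝ) + 1 := by push_cast; ring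
      generalize hL1 : Real.log ((n + 1 : ℕ) : ℝ) = L1 at *
      rw [e1]
      rw [mul_sub] at h3 h4
      constructor
      · linarith
      · linarith
  obtain ⟨h1, h2⟩ := h y hy
  have hlog : 0 ≤ Real.log y := Real.log_natCast_nonneg y
  rw [abs_le]
  constructor <;> linarith

theorem divisor_bound (y : ℕ) (hy : 1 ≤ y) :
    |((∑ a ∈ Ioc 0 y, y / a : ℕ) : ℝ) - (y * Real.log y + 2 * gam * y - y)| ≤
      21 * (Nat.sqrt y : ℕ) := by
  set s := Nat.sqrt y with hs
  have hs1 : 1 ≤ s := by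
    rw [hs, Nat.le_sqrt]
    omega
  have hs2 : s * s ≤ y := Nat.sqrt_le y
  have hs3 : y < (s + 1) * (s + 1) := Nat.lt_succ_sqrt y
  have hs0 : (0 : ℝ) < s := by exact_mod_cast hs1
  have hs1' : (1 : ℝ) ≤ s := by exact_mod_cast hs1
  have hy0 : (0 : ℝ) < y := by exact_mod_cast hy
  have hs2' : (s : ℝ) * s ≤ y := by exact_mod_cast hs2
  have hs3' : (y : ℝ) ≤ (s + 1) * (s + 1) := by exact_mod_cast hs3.le
  have hh := hyperbola y
  rw [← hs] at hh
  have hh' : ((∑ a ∈ Ioc 0 y, y / a : ℕ) : ℝ) = 2 * ∑ a ∈ Ioc 0 s, ((y / a : ℕ) : ℝ) - (s : ℝ) ^ 2 := by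
    have := congrArg (fun z : ℕ => (z : ℝ)) hh
    push_cast at this ⊢
    linarith
  rw [hh']
  -- floors
  have h1 : |∑ a ∈ Ioc 0 s, ((y / a : ℕ) : ℝ) - y * ∑ a ∈ Ioc 0 s, (1 : ℝ) / a| ≤ s := by
    rw [mul_sum, ← sum_sub_distrib]
    calc _ ≤ ∑ a ∈ Ioc 0 s, |((y / a : ℕ) : ℝ) - y * (1 / a)| := abs_sum_le_sum_abs _ _
      _ ≤ ∑ a ∈ Ioc 0 s, (1 : ℝ) := by
          refine sum_le_sum fun a ha => ?_
          have ha0 : (0 : ℝ) < a := by exact_mod_cast (mem_Ioc.1 ha).1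
          have h1 : ((y / a : ℕ) : ℝ) ≤ y / a := Nat.cast_div_le
          have h2 : (y : ℝ) / a < ((y / a : ℕ) : ℝ) + 1 := by
            rw [div_lt_iff₀ ha0]
            have h3 : y < (y / a + 1) * a := by
              have := Nat.lt_mul_div_succ y (mem_Ioc.1 ha).1
              rw [mul_comm]
              exact this
            exact_mod_cast h3
          rw [mul_one_div, abs_le]
          constructor <;> linarith
      _ = s := by simp
  have h2 := harm_bound s hs1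
  have h3 : |(y : ℝ) * (∑ a ∈ Ioc 0 s, (1 : ℝ) / a) - y * Real.log s - y * gam| ≤ 4 * s := by
    have : (y : ℝ) * (∑ a ∈ Ioc 0 s, (1 : ℝ) / a) - y * Real.log s - y * gam =
        y * ((∑ a ∈ Ioc 0 s, (1 : ℝ) / a) - Real.log s - gam) := by ring
    rw [this, abs_mul, abs_of_pos hy0]
    calc _ ≤ (y : ℝ) * (1 / s) := by gcongr
      _ ≤ ((s + 1) * (s + 1)) * (1 / s) := by gcongr
      _ ≤ 4 * s := by
          rw [mul_one_div, div_le_iff₀ hs0]
          nlinarith
  have h4 : |(y : ℝ) * Real.log y - 2 * (y * Real.log s)| ≤ 8 * s := by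
    have h5 : 0 ≤ Real.log y - 2 * Real.log s := by
      have : Real.log ((s : ℝ) * s) ≤ Real.log y := Real.log_le_log (by positivity) hs2'
      rw [Real.log_mul hs0.ne' hs0.ne'] at this
      linarith
    have h6 : Real.log y - 2 * Real.log s ≤ 2 / s := by
      have h7 : Real.log y ≤ Real.log (((s : ℝ) + 1) * (s + 1)) := Real.log_le_log hy0 hs3'
      rw [Real.log_mul (by positivity) (by positivity)] at h7
      have h8 : Real.log ((s : ℝ) + 1) - Real.log s ≤ 1 / s := by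
        rw [← Real.log_div (by positivity) hs0.ne']
        have : ((s : ℝ) + 1) / s = 1 + 1 / s := by field_simp
        rw [this]
        have := Real.log_le_sub_one_of_pos (show (0 : ℝ) < 1 + 1 / s by positivity)
        linarith
      have : (2 : ℝ) / s = 2 * (1 / s) := by ring
      linarith
    have : (y : ℝ) * Real.log y - 2 * (y * Real.log s) = y * (Real.log y - 2 * Real.log s) := by ring
    rw [this, abs_mul, abs_of_pos hy0, abs_of_nonneg h5]
    calc _ ≤ (y : ℝ) * (2 / s) := by gcongr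
      _ ≤ ((s + 1) * (s + 1)) * (2 / s) := by gcongr
      _ ≤ 8 * s := by
          rw [mul_div_assoc', div_le_iff₀ hs0]
          nlinarith
  have h5 : |(y : ℝ) - (s : ℝ) ^ 2| ≤ 3 * s := by
    rw [abs_le]
    constructor <;> nlinarith
  rw [abs_le] at *
  obtain ⟨h1a, h1b⟩ := h1
  obtain ⟨h3a, h3b⟩ := h3
  obtain ⟨h4a, h4b⟩ := h4
  obtain ⟨h5a, h5b⟩ := h5
  constructor <;> linarith

end Pool.Agent.PNTheta
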