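import Pool.Agent.PNTheta.Mobius
import Pool.Agent.PNTheta.Divisor

set_option autoImplicit false

/-!
# The prime number theorem for `ψ` and `θ`
-/

open Finset Filter Topology
open scoped ArithmeticFunction

namespace Pool.Agent.PNTheta

/-- `log - τ + 2γ` -/
noncomputable def gg : ArithmeticFunction ℝ :=
  ArithmeticFunction.log - (ArithmeticFunction.zeta : ArithmeticFunction ℝ) *
    (ArithmeticFunction.zeta : ArithmeticFunction ℝ) +
    (2 * gam) • (ArithmeticFunction.zeta : ArithmeticFunction ℝ)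

noncomputable def FF (y : ℕ) : ℝ := ∑ b ∈ Ioc 0 y, gg b

theorem FF_eq (y : ℕ) : FF y = (∑ b ∈ Ioc 0 y, Real.log b) - ((∑ a ∈ Ioc 0 y, y / a : ℕ) : ℝ)
    + 2 * gam * y := by
  unfold FF gg
  have h1 : ∑ b ∈ Ioc 0 y, ((ArithmeticFunction.zeta : ArithmeticFunction ℝ) *
      (ArithmeticFunction.zeta : ArithmeticFunction ℝ)) b = ((∑ a ∈ Ioc 0 y, y / a : ℕ) : ℝ) := by
    rw [ArithmeticFunction.sum_Ioc_mul_zeta_eq_sum]
    push_cast
    refine sum_congr rfl fun a ha => ?_
    have : a ≠ 0 := by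
      have := (mem_Ioc.1 ha).1
      omega
    simp [this]
  have h2 : ∑ b ∈ Ioc 0 y, ((2 * gam) • (ArithmeticFunction.zeta : ArithmeticFunction ℝ)) b
      = 2 * gam * y := by
    have : ∀ b ∈ Ioc 0 y, ((2 * gam) • (ArithmeticFunction.zeta : ArithmeticFunction ℝ)) b = 2 * gam := by
      intro b hb
      have : b ≠ 0 := by
        have := (mem_Ioc.1 hb).1
        omega
      simp [this]
    rw [sum_congr rfl this, sum_const, Nat.card_Ioc, Nat.sub_zero, nsmul_eq_mul]
    ring
  rw [← h1, ← h2, ← sum_sub_distrib, ← sum_add_distrib]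
  refine sum_congr rfl fun b _ => ?_
  rw [ArithmeticFunction.add_apply, sub_eq_add_neg, ArithmeticFunction.add_apply,
    ArithmeticFunction.neg_apply, ArithmeticFunction.log_apply, sub_eq_add_neg]

theorem FF_bound (y : ℕ) (hy : 1 ≤ y) : |FF y| ≤ 24 * (Nat.sqrt y : ℕ) := by
  have h1 := log_fact_bound y hy
  have h2 := divisor_bound y hy
  rw [FF_eq]
  set s := Nat.sqrt y with hs
  have hs1 : 1 ≤ s := by
    rw [hs, Nat.le_sqrt]
    omega
  have hs3 : y < (s + 1) * (s + 1) := Nat.lt_succ_sqrt y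
  have hs1' : (1 : ℝ) ≤ s := by exact_mod_cast hs1
  have hy0 : (0 : ℝ) < y := by exact_mod_cast hy
  have hs3' : (y : ℝ) ≤ (s + 1) * (s + 1) := by exact_mod_cast hs3.le
  have h3 : Real.log y ≤ 2 * s := by
    calc Real.log y ≤ Real.log (((s : ℝ) + 1) * (s + 1)) := Real.log_le_log hy0 hs3'
      _ = 2 * Real.log ((s : ℝ) + 1) := by
          rw [Real.log_mul (by positivity) (by positivity)]
          ring
      _ ≤ 2 * s := by
          have := Real.log_le_sub_one_of_pos (show (0 : ℝ) < (s : ℝ) + 1 by positivity)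
          linarith
  rw [abs_le] at *
  obtain ⟨h1a, h1b⟩ := h1
  obtain ⟨h2a, h2b⟩ := h2
  constructor <;> linarith

theorem psi_eq (x : ℕ) (hx : 1 ≤ x) :
    ∑ a ∈ Ioc 0 x, (ArithmeticFunction.moebius a : ℝ) * FF (x / a) =
      Chebyshev.psi x - x + 2 * gam := by
  have h1 := ArithmeticFunction.sum_Ioc_mul_eq_sum_sum
    ((ArithmeticFunction.moebius : ArithmeticFunction ℤ) : ArithmeticFunction ℝ) gg x
  have h2 : ((ArithmeticFunction.moebius : ArithmeticFunction ℤ) : ArithmeticFunction ℝ) * gg =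
      ArithmeticFunction.vonMangoldt - (ArithmeticFunction.zeta : ArithmeticFunction ℝ) +
        (2 * gam) • (1 : ArithmeticFunction ℝ) := by
    unfold gg
    rw [mul_add, mul_sub, mul_smul_comm, ArithmeticFunction.coe_moebius_mul_coe_zeta,
      ← mul_assoc, ArithmeticFunction.coe_moebius_mul_coe_zeta, one_mul,
      ← ArithmeticFunction.vonMangoldt_mul_zeta, mul_comm ArithmeticFunction.vonMangoldt,
      ← mul_assoc, ArithmeticFunction.coe_moebius_mul_coe_zeta, one_mul]
  rw [h2] at h1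
  have h3 : ∑ n ∈ Ioc 0 x, (ArithmeticFunction.vonMangoldt -
      (ArithmeticFunction.zeta : ArithmeticFunction ℝ) +
        (2 * gam) • (1 : ArithmeticFunction ℝ)) n = Chebyshev.psi x - x + 2 * gam := by
    have e1 : ∀ n ∈ Ioc 0 x, (ArithmeticFunction.vonMangoldt -
      (ArithmeticFunction.zeta : ArithmeticFunction ℝ) +
        (2 * gam) • (1 : ArithmeticFunction ℝ)) n =
        ArithmeticFunction.vonMangoldt n - 1 + 2 * gam * (if n = 1 then 1 else 0) := by
      intro n hn
      have hn0 : n ≠ 0 := by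
        have := (mem_Ioc.1 hn).1
        omega
      rw [ArithmeticFunction.add_apply, sub_eq_add_neg, ArithmeticFunction.add_apply,
        ArithmeticFunction.neg_apply]
      simp [hn0, ArithmeticFunction.one_apply, sub_eq_add_neg]
    rw [sum_congr rfl e1, sum_add_distrib, sum_sub_distrib, ← mul_sum]
    simp only [sum_const, Nat.card_Ioc, Nat.sub_zero, nsmul_eq_mul, mul_one]
    rw [sum_ite_eq' (Ioc 0 x) 1 (fun _ => (1 : ℝ)), if_pos (mem_Ioc.2 ⟨by norm_num, hx⟩)]
    unfold Chebyshev.psi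
    rw [Nat.floor_natCast]
    ring
  rw [h3] at h1
  rw [h1]
  refine sum_congr rfl fun a _ => ?_
  rw [ArithmeticFunction.intCoe_apply]
  rfl

theorem sum_inv_sqrt_le (A : ℕ) : ∑ a ∈ Ioc 0 A, 1 / Real.sqrt a ≤ 2 * Real.sqrt A := by
  induction A with
  | zero => simp
  | succ n ih =>
    have e : Ioc 0 (n + 1) = insert (n + 1) (Ioc 0 n) := by ext; simp; omega
    rw [e, sum_insert (by simp)]
    have h1 : Real.sqrt n ^ 2 = n := Real.sq_sqrt (by positivity)
    have h2 : Real.sqrt ((n + 1 : ℕ) : ℝ) ^ 2 = n + 1 := by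
      rw [Real.sq_sqrt (by positivity)]
      push_cast; ring
    have h3 : 0 < Real.sqrt ((n + 1 : ℕ) : ℝ) := Real.sqrt_pos.2 (by positivity)
    have h4 : 0 ≤ Real.sqrt n := Real.sqrt_nonneg _
    have h5 : 1 / Real.sqrt ((n + 1 : ℕ) : ℝ) ≤
        2 * Real.sqrt ((n + 1 : ℕ) : ℝ) - 2 * Real.sqrt n := by
      rw [div_le_iff₀ h3]
      nlinarith [sq_nonneg (Real.sqrt ((n + 1 : ℕ) : ℝ) - Real.sqrt n)]
    linarith

theorem split_bound (B : ℕ) : ∃ K : ℝ, 0 ≤ K ∧ ∀ ε C : ℝ, 0 ≤ ε → 0 ≤ C →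
    (∀ x : ℕ, |MM x| ≤ ε * x + C) → ∀ x : ℕ,
    |∑ a ∈ Ioc 0 x, (ArithmeticFunction.moebius a : ℝ) * FF (x / a)| ≤
      48 * x / Real.sqrt (B + 1) + K * (ε * x + C) := by
  refine ⟨2 * ∑ b ∈ Ioc 0 B, |gg b|, by positivity, fun ε C hε hC hM x => ?_⟩
  set A := x / (B + 1) with hA
  have hAx : A ≤ x := Nat.div_le_self _ _
  clear_value A
  have hsplit : Ioc 0 x = Ioc 0 A ∪ Ioc A x := by
    ext a; simp only [mem_union, mem_Ioc]; omega
  have hdisj : Disjoint (Ioc 0 A) (Ioc A x) := by
    rw [Finset.disjoint_left]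
    intro a h1 h2
    rw [mem_Ioc] at h1 h2
    omega
  rw [hsplit, sum_union hdisj]
  refine (abs_add_le _ _).trans (add_le_add ?_ ?_)
  · -- small `a`
    calc _ ≤ ∑ a ∈ Ioc 0 A, |(ArithmeticFunction.moebius a : ℝ) * FF (x / a)| :=
          abs_sum_le_sum_abs _ _
      _ ≤ ∑ a ∈ Ioc 0 A, 24 * Real.sqrt x * (1 / Real.sqrt a) := by
          refine sum_le_sum fun a ha => ?_
          rw [mem_Ioc] at ha
          have hmu : |(ArithmeticFunction.moebius a : ℝ)| ≤ 1 := by
            exact_mod_cast ArithmeticFunction.abs_moebius_le_one (n := a)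
          rw [abs_mul]
          have h1 : |(ArithmeticFunction.moebius a : ℝ)| * |FF (x / a)| ≤ |FF (x / a)| :=
            mul_le_of_le_one_left (abs_nonneg _) hmu
          have hxa : 1 ≤ x / a := by
            rw [Nat.one_le_div_iff ha.1]
            omega
          refine h1.trans ((FF_bound _ hxa).trans ?_)
          have h2 : ((Nat.sqrt (x / a) : ℕ) : ℝ) ≤ Real.sqrt ((x / a : ℕ) : ℝ) := by
            apply Real.le_sqrt_of_sq_le
            exact_mod_cast Nat.sqrt_le' (x / a)
          have h3 : Real.sqrt ((x / a : ℕ) : ℝ) ≤ Real.sqrt x * (1 / Real.sqrt a) := by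
            rw [mul_one_div, ← Real.sqrt_div (by positivity)]
            exact Real.sqrt_le_sqrt Nat.cast_div_le
          have := h2.trans h3
          linarith
      _ = 24 * Real.sqrt x * ∑ a ∈ Ioc 0 A, (1 / Real.sqrt a) := by rw [mul_sum]
      _ ≤ 24 * Real.sqrt x * (2 * Real.sqrt A) := by
          exact mul_le_mul_of_nonneg_left (sum_inv_sqrt_le A) (by positivity)
      _ ≤ 24 * Real.sqrt x * (2 * (Real.sqrt x / Real.sqrt (B + 1))) := by
          have : Real.sqrt A ≤ Real.sqrt x / Real.sqrt (B + 1) := by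
            rw [← Real.sqrt_div (by positivity)]
            apply Real.sqrt_le_sqrt
            rw [hA]
            have := Nat.cast_div_le (α := ℝ) (m := x) (n := B + 1)
            push_cast at this
            exact this
          gcongr
      _ = 48 * x / Real.sqrt (B + 1) := by
          have : Real.sqrt x * Real.sqrt x = x := Real.mul_self_sqrt (by positivity)
          calc _ = 48 * (Real.sqrt x * Real.sqrt x) / Real.sqrt (B + 1) := by ring
            _ = _ := by rw [this]
  · -- large `a`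
    have h1 : ∑ a ∈ Ioc A x, (ArithmeticFunction.moebius a : ℝ) * FF (x / a) =
        ∑ b ∈ Ioc 0 B, gg b * (MM (x / b) - MM A) := by
      have e1 : ∀ a ∈ Ioc A x, (ArithmeticFunction.moebius a : ℝ) * FF (x / a) =
          ∑ b ∈ Ioc 0 B, if a ≤ x / b then (ArithmeticFunction.moebius a : ℝ) * gg b else 0 := by
        intro a ha
        rw [mem_Ioc] at ha
        have ha0 : 0 < a := by omega
        have hxa : x / a ≤ B := by
          rw [Nat.div_le_iff_le_mul_add_pred ha0]
          have : x < (A + 1) * (B + 1) := by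
            have := Nat.lt_div_mul_add (a := x) (b := B + 1) (by omega)
            rw [← hA] at this
            linarith
          have h5 : (A + 1) * (B + 1) ≤ a * (B + 1) := Nat.mul_le_mul_right _ ha.1
          have h6 : x < a * (B + 1) := lt_of_lt_of_le this h5
          have h7 : a * (B + 1) = a * B + a := by ring
          omega
        unfold FF
        rw [mul_sum, ← sum_filter]
        refine sum_congr ?_ fun b _ => rfl
        ext b
        rw [mem_filter, mem_Ioc, mem_Ioc]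
        constructor
        · rintro ⟨hb0, hb⟩
          refine ⟨⟨hb0, hb.trans hxa⟩, ?_⟩
          rw [Nat.le_div_iff_mul_le hb0]
          rw [Nat.le_div_iff_mul_le ha0] at hb
          linarith
        · rintro ⟨⟨hb0, _⟩, hb⟩
          refine ⟨hb0, ?_⟩
          rw [Nat.le_div_iff_mul_le ha0]
          rw [Nat.le_div_iff_mul_le hb0] at hb
          linarith
      rw [sum_congr rfl e1, sum_comm]
      refine sum_congr rfl fun b hb => ?_
      rw [mem_Ioc] at hb
      rw [← sum_filter, ← sum_mul, mul_comm]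
      congr 1
      have hAb : A ≤ x / b := by
        rw [hA]
        exact Nat.div_le_div_left (by omega) hb.1
      have hxb : x / b ≤ x := Nat.div_le_self _ _
      have e2 : (Ioc A x).filter (fun a => a ≤ x / b) = Ioc A (x / b) := by
        ext a
        rw [mem_filter, mem_Ioc, mem_Ioc]
        omega
      rw [e2]
      unfold MM
      have e3 : Ioc 0 (x / b) = Ioc 0 A ∪ Ioc A (x / b) := by
        ext a; simp only [mem_union, mem_Ioc]; omega
      have hd : Disjoint (Ioc 0 A) (Ioc A (x / b)) := by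
        rw [Finset.disjoint_left]
        intro a h1 h2
        rw [mem_Ioc] at h1 h2
        omega
      rw [e3, sum_union hd]
      ring
    rw [h1]
    calc _ ≤ ∑ b ∈ Ioc 0 B, |gg b * (MM (x / b) - MM A)| := abs_sum_le_sum_abs _ _
      _ ≤ ∑ b ∈ Ioc 0 B, |gg b| * (2 * (ε * x + C)) := by
          refine sum_le_sum fun b _ => ?_
          rw [abs_mul]
          refine mul_le_mul_of_nonneg_left ?_ (abs_nonneg _)
          have h2 := hM (x / b)
          have h3 := hM A
          have h4 : ((x / b : ℕ) : ℝ) ≤ x := by exact_mod_cast Nat.div_le_self x b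
          have h5 : (A : ℝ) ≤ x := by exact_mod_cast hAx
          have h6 := mul_le_mul_of_nonneg_left h4 hε
          have h7 := mul_le_mul_of_nonneg_left h5 hε
          have h8 := abs_sub (MM (x / b)) (MM A)
          linarith
      _ = 2 * (∑ b ∈ Ioc 0 B, |gg b|) * (ε * x + C) := by
          rw [← sum_mul]
          ring

/-- the prime number theorem, `|ψ(x) - x| ≤ ε x + C` -/
theorem psi_small (ε : ℝ) (hε : 0 < ε) : ∃ C : ℝ, 0 ≤ C ∧ ∀ x : ℕ,
    |Chebyshev.psi x - x| ≤ ε * x + C := by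
  obtain ⟨B, hB⟩ : ∃ B : ℕ, 48 / Real.sqrt (B + 1) ≤ ε / 2 := by
    obtain ⟨B, hB⟩ := exists_nat_ge ((96 / ε) ^ 2)
    refine ⟨B, ?_⟩
    have h1 : 96 / ε ≤ Real.sqrt (B + 1) := Real.le_sqrt_of_sq_le (by linarith)
    have h2 : 0 < Real.sqrt (B + 1) := Real.sqrt_pos.2 (by positivity)
    rw [div_le_iff₀ h2]
    rw [div_le_iff₀ hε] at h1
    linarith
  obtain ⟨K, hK, h⟩ := split_bound B
  obtain ⟨C, hC, hM⟩ := MM_small (ε / (2 * (K + 1))) (by positivity)
  refine ⟨K * C + 2, by positivity, fun x => ?_⟩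
  rcases Nat.eq_zero_or_pos x with rfl | hx
  · simp only [Nat.cast_zero, Chebyshev.psi_zero, sub_zero, abs_zero, mul_zero, zero_add]
    positivity
  have h1 := h (ε / (2 * (K + 1))) C (by positivity) hC hM x
  rw [psi_eq x hx] at h1
  have hgam : |2 * gam| ≤ 2 := by
    have h2 := Real.one_half_lt_eulerMascheroniConstant
    have h3 := Real.eulerMascheroniConstant_lt_two_thirds
    rw [abs_le]
    constructor <;> linarith
  have h2 : |Chebyshev.psi x - x| ≤ |Chebyshev.psi x - x + 2 * gam| + |2 * gam| := by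
    have := abs_sub (Chebyshev.psi x - x + 2 * gam) (2 * gam)
    simpa using this
  have h3 : 48 * (x : ℝ) / Real.sqrt (B + 1) ≤ ε / 2 * x := by
    have : 48 * (x : ℝ) / Real.sqrt (B + 1) = 48 / Real.sqrt (B + 1) * x := by ring
    rw [this]
    gcongr
  have h4 : K * (ε / (2 * (K + 1)) * x + C) ≤ ε / 2 * x + K * C := by
    have : K * (ε / (2 * (K + 1))) ≤ ε / 2 := by
      rw [mul_div_assoc', div_le_div_iff₀ (by positivity) (by norm_num)]
      nlinarith
    have hx0 : (0 : ℝ) ≤ x := by positivity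
    have := mul_le_mul_of_nonneg_right this hx0
    linarith
  linarith

theorem psi_tendsto : Tendsto (fun x : ℝ => Chebyshev.psi x / x) atTop (𝓝 1) := by
  rw [Metric.tendsto_atTop]
  intro ε hε
  obtain ⟨C, hC, h⟩ := psi_small (ε / 4) (by positivity)
  refine ⟨max 1 (4 * (C + 1) / ε), fun x hx => ?_⟩
  have hx1 : 1 ≤ x := (le_max_left _ _).trans hx
  have hx2 : 4 * (C + 1) / ε ≤ x := (le_max_right _ _).trans hx
  have hx0 : 0 < x := by linarith
  rw [Real.dist_eq]
  have e : Chebyshev.psi x / x - 1 = (Chebyshev.psi x - x) / x := by field_simp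
  rw [e, abs_div, abs_of_pos hx0, div_lt_iff₀ hx0]
  have h1 := h ⌊x⌋₊
  have h2 : Chebyshev.psi x = Chebyshev.psi (⌊x⌋₊ : ℝ) := Chebyshev.psi_eq_psi_coe_floor x
  have h3 : (⌊x⌋₊ : ℝ) ≤ x := Nat.floor_le hx0.le
  have h4 : x < ⌊x⌋₊ + 1 := Nat.lt_floor_add_one x
  have h5 : |Chebyshev.psi x - x| ≤ |Chebyshev.psi (⌊x⌋₊ : ℝ) - ⌊x⌋₊| + 1 := by
    rw [h2]
    rw [abs_le] at *
    obtain ⟨h1a, h1b⟩ := h1
    have h6 := neg_abs_le (Chebyshev.psi (⌊x⌋₊ : ℝ) - ⌊x⌋₊)
    have h7 := le_abs_self (Chebyshev.psi (⌊x⌋₊ : ℝ) - ⌊x⌋₊)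
    constructor <;> linarith
  have h8 : ε / 4 * (⌊x⌋₊ : ℝ) ≤ ε / 4 * x := by gcongr
  rw [div_le_iff₀ hε] at hx2
  nlinarith

theorem theta_tendsto : Tendsto (fun x : ℝ => Chebyshev.theta x / x) atTop (𝓝 1) := by
  obtain ⟨C, hC⟩ := Chebyshev.psi_sub_theta_le_mul_sqrt
  have h1 : Tendsto (fun x : ℝ => Chebyshev.psi x / x - C * (1 / Real.sqrt x)) atTop (𝓝 (1 - C * 0)) := by
    refine psi_tendsto.sub (Tendsto.const_mul C ?_)
    simp only [one_div]
    exact tendsto_inv_atTop_zero.comp Real.tendsto_sqrt_atTop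
  rw [mul_zero, sub_zero] at h1
  refine tendsto_of_tendsto_of_tendsto_of_le_of_le' h1 psi_tendsto ?_ ?_
  · filter_upwards [eventually_gt_atTop 0] with x hx
    have h2 := hC x
    have h3 : Real.sqrt x * Real.sqrt x = x := Real.mul_self_sqrt hx.le
    have h4 : 0 < Real.sqrt x := Real.sqrt_pos.2 hx
    have h5 : C * (1 / Real.sqrt x) = C * Real.sqrt x / x := by
      nth_rewrite 3 [← h3]
      field_simp
    rw [h5, ← sub_div]
    gcongr
    linarith
  · filter_upwards [eventually_gt_atTop 0] with x hx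
    have := Chebyshev.theta_le_psi x
    gcongr

end Pool.Agent.PNTheta
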