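import Pool.Agent.GLI.Pnt

set_option autoImplicit false

/-!
# The summatory function of `μ` is `o(x)`
-/

open Finset Filter

namespace Pool.Agent.PNTheta

/-- `∑_{n ≤ x} λ(n)` -/
noncomputable def LL (x : ℕ) : ℝ := ∑ n ∈ Ioc 0 x, (ArithmeticFunction.liouville n : ℝ)

/-- `∑_{n ≤ x} μ(n)` -/
noncomputable def MM (x : ℕ) : ℝ := ∑ n ∈ Ioc 0 x, (ArithmeticFunction.moebius n : ℝ)

theorem LL_eq (x : ℕ) : LL x = ∑ n ∈ Icc 1 x, (GLI.lam n : ℝ) := by
  unfold LL
  have : Ioc 0 x = Icc 1 x := by ext; simp [Nat.succ_le_iff]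
  rw [this]
  refine sum_congr rfl fun n hn => ?_
  have hn' : n ≠ 0 := by
    have := (mem_Icc.1 hn).1
    omega
  rw [ArithmeticFunction.liouville_apply hn']
  rfl

theorem LL_trivial (x : ℕ) : |LL x| ≤ x := by
  unfold LL
  calc _ ≤ ∑ n ∈ Ioc 0 x, |(ArithmeticFunction.liouville n : ℝ)| := abs_sum_le_sum_abs _ _
    _ ≤ ∑ n ∈ Ioc 0 x, (1 : ℝ) := by
        refine sum_le_sum fun n hn => ?_
        have hn' : n ≠ 0 := by
          have := (mem_Ioc.1 hn).1
          omega
        rw [ArithmeticFunction.liouville_apply hn']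
        push_cast
        rw [abs_pow, abs_neg, abs_one, one_pow]
    _ = x := by simp

theorem LL_small (ε : ℝ) (hε : 0 < ε) : ∃ C : ℝ, 0 ≤ C ∧ ∀ x : ℕ, |LL x| ≤ ε * x + C := by
  obtain ⟨C, hC, h⟩ := GLI.pnt 1
  have hlog : Tendsto (fun x : ℕ => Real.log (x : ℝ)) atTop atTop :=
    Real.tendsto_log_atTop.comp tendsto_natCast_atTop_atTop
  obtain ⟨x0, hx0⟩ := eventually_atTop.1 (hlog.eventually (eventually_ge_atTop (C / ε)))
  refine ⟨(x0 : ℝ) + 2, by positivity, fun x => ?_⟩
  rcases Nat.lt_or_ge x (x0 + 2) with hx | hx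
  · have h1 := LL_trivial x
    have h2 : (x : ℝ) ≤ (x0 : ℝ) + 2 := by exact_mod_cast hx.le
    have h3 : 0 ≤ ε * (x : ℝ) := by positivity
    linarith
  · have hx2 : 2 ≤ x := by omega
    have h1 := h x hx2
    rw [pow_one] at h1
    have h2 := hx0 x (by omega)
    have hxpos : (0 : ℝ) < x := by
      have : 0 < x := by omega
      exact_mod_cast this
    have hlogpos : 0 < Real.log (x : ℝ) := lt_of_lt_of_le (by positivity) h2
    have h3 : C * x / Real.log x ≤ ε * x := by
      rw [div_le_iff₀ hlogpos]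
      have : C ≤ ε * Real.log x := by
        rw [div_le_iff₀ hε] at h2
        linarith
      nlinarith
    rw [LL_eq]
    have : (0 : ℝ) ≤ x0 := by positivity
    linarith

theorem sq_dvd_iff {a b d : ℕ} (ha : Squarefree a) (hb : b ≠ 0) : d ^ 2 ∣ b ^ 2 * a ↔ d ∣ b := by
  constructor
  · intro h
    have ha0 : a ≠ 0 := ha.ne_zero
    have hd0 : d ≠ 0 := by
      rintro rfl
      rw [zero_pow (by norm_num), zero_dvd_iff] at h
      exact (mul_ne_zero (pow_ne_zero 2 hb) ha0) h
    rw [← Nat.factorization_le_iff_dvd hd0 hb]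
    intro p
    have h2 := (Nat.factorization_le_iff_dvd (pow_ne_zero 2 hd0)
      (mul_ne_zero (pow_ne_zero 2 hb) ha0)).2 h p
    rw [Nat.factorization_mul (pow_ne_zero 2 hb) ha0, Nat.factorization_pow,
      Nat.factorization_pow] at h2
    simp only [Finsupp.smul_apply, Finsupp.add_apply, smul_eq_mul] at h2
    have h3 := ha.natFactorization_le_one p
    omega
  · intro h
    exact Dvd.dvd.mul_right (pow_dvd_pow_of_dvd h 2) a

theorem sum_moebius_sq {n N : ℕ} (hn : n ≠ 0) (hN : n ≤ N) :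
    ∑ d ∈ (Ioc 0 N).filter (fun d => d ^ 2 ∣ n), ArithmeticFunction.moebius d
      = if Squarefree n then 1 else 0 := by
  obtain ⟨a, b, hab, ha⟩ := Nat.sq_mul_squarefree n
  have hb : b ≠ 0 := by
    rintro rfl
    simp at hab
    exact hn hab.symm
  have h1 : (Ioc 0 N).filter (fun d => d ^ 2 ∣ n) = b.divisors := by
    ext d
    rw [mem_filter, mem_Ioc, Nat.mem_divisors, ← hab, sq_dvd_iff ha hb]
    constructor
    · rintro ⟨_, h⟩
      exact ⟨h, hb⟩
    · rintro ⟨h, _⟩
      refine ⟨⟨Nat.pos_of_dvd_of_pos h (Nat.pos_of_ne_zero hb), ?_⟩, h⟩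
      have h2 : d ≤ b := Nat.le_of_dvd (Nat.pos_of_ne_zero hb) h
      have h3 : b ≤ b ^ 2 * a := by
        have : 0 < a := Nat.pos_of_ne_zero ha.ne_zero
        nlinarith [Nat.pos_of_ne_zero hb]
      omega
  rw [h1]
  have h2 : ∑ d ∈ b.divisors, ArithmeticFunction.moebius d = if b = 1 then 1 else 0 := by
    rw [← ArithmeticFunction.coe_mul_zeta_apply, ArithmeticFunction.moebius_mul_coe_zeta,
      ArithmeticFunction.one_apply]
  rw [h2]
  by_cases hb1 : b = 1
  · subst hb1
    rw [if_pos rfl, if_pos]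
    rw [← hab]
    simpa using ha
  · rw [if_neg hb1, if_neg]
    intro hsq
    apply hb1
    have : b * b ∣ n := by
      rw [← hab, sq]
      exact Dvd.intro a rfl
    exact Nat.isUnit_iff.1 (hsq b this)

theorem MM_eq (x : ℕ) : MM x = ∑ d ∈ Ioc 0 x, (ArithmeticFunction.moebius d : ℝ) * LL (x / d ^ 2) := by
  unfold MM LL
  have h1 : ∀ n ∈ Ioc 0 x, (ArithmeticFunction.moebius n : ℝ) =
      ∑ d ∈ Ioc 0 x, if d ^ 2 ∣ n then
        (ArithmeticFunction.moebius d : ℝ) * (ArithmeticFunction.liouville n : ℝ) else 0 := by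
    intro n hn
    rw [mem_Ioc] at hn
    have hn0 : n ≠ 0 := by omega
    rw [← sum_filter, ← sum_mul]
    have h2 := sum_moebius_sq hn0 hn.2
    have h3 : (∑ d ∈ (Ioc 0 x).filter (fun d => d ^ 2 ∣ n), (ArithmeticFunction.moebius d : ℝ))
        = if Squarefree n then 1 else 0 := by
      have := congrArg (fun z : ℤ => (z : ℝ)) h2
      simpa using this
    rw [h3]
    by_cases hs : Squarefree n
    · rw [if_pos hs, one_mul, ArithmeticFunction.moebius_apply_of_squarefree hs,
        ArithmeticFunction.liouville_apply hn0]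
    · rw [if_neg hs, zero_mul, ArithmeticFunction.moebius_eq_zero_of_not_squarefree hs]
      simp
  rw [sum_congr rfl h1, sum_comm]
  refine sum_congr rfl fun d hd => ?_
  rw [mem_Ioc] at hd
  rw [← sum_filter, mul_sum]
  symm
  apply sum_bij (fun k _ => d ^ 2 * k)
  · intro k hk
    rw [mem_Ioc] at hk
    rw [mem_filter, mem_Ioc]
    have hd2 : 0 < d ^ 2 := pow_pos hd.1 2
    refine ⟨⟨Nat.mul_pos hd2 hk.1, ?_⟩, Dvd.intro k rfl⟩
    have := (Nat.le_div_iff_mul_le hd2).1 hk.2
    linarith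
  · intro k _ k' _ h
    exact Nat.eq_of_mul_eq_mul_left (pow_pos hd.1 2) h
  · intro n hn
    rw [mem_filter, mem_Ioc] at hn
    obtain ⟨⟨h0, hx⟩, k, rfl⟩ := hn
    have hd2 : 0 < d ^ 2 := pow_pos hd.1 2
    refine ⟨k, ?_, rfl⟩
    rw [mem_Ioc]
    refine ⟨Nat.pos_of_mul_pos_left h0, ?_⟩
    rw [Nat.le_div_iff_mul_le hd2]
    linarith
  · intro k hk
    have hk0 : k ≠ 0 := by
      have := (mem_Ioc.1 hk).1
      omega
    have : ArithmeticFunction.liouville (d ^ 2 * k) = ArithmeticFunction.liouville k := by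
      rw [ArithmeticFunction.liouville_apply_mul, sq, ArithmeticFunction.liouville_apply_mul]
      have : ArithmeticFunction.liouville d * ArithmeticFunction.liouville d = 1 := by
        rw [ArithmeticFunction.liouville_apply (by omega : d ≠ 0), ← mul_pow]
        simp
      rw [this, one_mul]
    rw [this]

theorem sum_inv_sq_le (x : ℕ) : ∑ d ∈ Ioc 0 x, (1 : ℝ) / (d : ℝ) ^ 2 ≤ 2 := by
  have h : ∀ x : ℕ, 1 ≤ x → ∑ d ∈ Ioc 0 x, (1 : ℝ) / (d : ℝ) ^ 2 ≤ 2 - 1 / x := by
    intro x hx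
    induction x, hx using Nat.le_induction with
    | base => norm_num
    | succ n hn ih =>
      have e : Ioc 0 (n + 1) = insert (n + 1) (Ioc 0 n) := by ext; simp; omega
      rw [e, sum_insert (by simp)]
      have hn0 : (0 : ℝ) < n := by exact_mod_cast hn
      have : (1 : ℝ) / ((n + 1 : ℕ) : ℝ) ^ 2 ≤ 1 / n - 1 / ((n + 1 : ℕ) : ℝ) := by
        push_cast
        rw [div_sub_div _ _ hn0.ne' (by positivity), div_le_div_iff₀ (by positivity) (by positivity)]
        nlinarith
      linarith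
  rcases Nat.eq_zero_or_pos x with rfl | hx
  · simp
  · have := h x hx
    have h2 : (0 : ℝ) ≤ 1 / x := by positivity
    linarith

theorem MM_small (ε : ℝ) (hε : 0 < ε) : ∃ C : ℝ, 0 ≤ C ∧ ∀ x : ℕ, |MM x| ≤ ε * x + C := by
  obtain ⟨C, hC, h⟩ := LL_small (ε / 4) (by positivity)
  -- for `d ≤ √x` use the bound, otherwise the sum is empty
  refine ⟨C * (2 * C / ε + 1), by positivity, fun x => ?_⟩
  rw [MM_eq]
  have h0 : ∀ d ∈ Ioc 0 x, |(ArithmeticFunction.moebius d : ℝ) * LL (x / d ^ 2)| ≤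
      (ε / 4) * x * (1 / (d : ℝ) ^ 2) + (if d ≤ Nat.sqrt x then C else 0) := by
    intro d hd
    rw [mem_Ioc] at hd
    have hd0 : (0 : ℝ) < d := by exact_mod_cast hd.1
    have hmu : |(ArithmeticFunction.moebius d : ℝ)| ≤ 1 := by
      exact_mod_cast ArithmeticFunction.abs_moebius_le_one (n := d)
    rw [abs_mul]
    have h1 : |(ArithmeticFunction.moebius d : ℝ)| * |LL (x / d ^ 2)| ≤ |LL (x / d ^ 2)| :=
      mul_le_of_le_one_left (abs_nonneg _) hmu
    refine h1.trans ?_
    by_cases hds : d ≤ Nat.sqrt x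
    · rw [if_pos hds]
      refine (h _).trans ?_
      have : ((x / d ^ 2 : ℕ) : ℝ) ≤ x * (1 / (d : ℝ) ^ 2) := by
        have := Nat.cast_div_le (α := ℝ) (m := x) (n := d ^ 2)
        push_cast at this
        rw [mul_one_div]
        exact this
      have := mul_le_mul_of_nonneg_left this (show 0 ≤ ε / 4 by positivity)
      linarith
    · rw [if_neg hds]
      have : x / d ^ 2 = 0 := by
        rw [Nat.div_eq_zero_iff]
        right
        rw [not_le, Nat.sqrt_lt'] at hds
        exact hds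
      rw [this]
      simp only [LL, Ioc_self, sum_empty, abs_zero, add_zero]
      positivity
  calc _ ≤ ∑ d ∈ Ioc 0 x, |(ArithmeticFunction.moebius d : ℝ) * LL (x / d ^ 2)| :=
        abs_sum_le_sum_abs _ _
    _ ≤ ∑ d ∈ Ioc 0 x, ((ε / 4) * x * (1 / (d : ℝ) ^ 2) + (if d ≤ Nat.sqrt x then C else 0)) :=
        sum_le_sum h0
    _ = (ε / 4) * x * ∑ d ∈ Ioc 0 x, (1 / (d : ℝ) ^ 2) +
        ∑ d ∈ Ioc 0 x, (if d ≤ Nat.sqrt x then C else 0) := by
        rw [sum_add_distrib, mul_sum]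
    _ ≤ (ε / 4) * x * 2 + ((Nat.sqrt x : ℕ) : ℝ) * C := by
        refine add_le_add (mul_le_mul_of_nonneg_left (sum_inv_sq_le x) (by positivity)) ?_
        rw [← sum_filter, sum_const, nsmul_eq_mul]
        refine mul_le_mul_of_nonneg_right ?_ hC
        have : (Ioc 0 x).filter (fun d => d ≤ Nat.sqrt x) ⊆ Ioc 0 (Nat.sqrt x) := by
          intro d hd
          rw [mem_filter, mem_Ioc] at hd
          rw [mem_Ioc]
          exact ⟨hd.1.1, hd.2⟩
        have := card_le_card this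
        rw [Nat.card_Ioc, Nat.sub_zero] at this
        exact_mod_cast this
    _ ≤ ε * x + C * (2 * C / ε + 1) := by
        have hs : ((Nat.sqrt x : ℕ) : ℝ) ^ 2 ≤ x := by
          exact_mod_cast Nat.sqrt_le' x
        set s : ℝ := ((Nat.sqrt x : ℕ) : ℝ) with hsdef
        have hs0 : 0 ≤ s := by positivity
        -- s * C ≤ (ε/2) s² + C²/(2ε) ≤ ...
        have h3 : s * C ≤ (ε / 2) * s ^ 2 + C ^ 2 / (2 * ε) := by
          have : 0 ≤ (ε * s - C) ^ 2 / (2 * ε) := by positivity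
          have e : (ε * s - C) ^ 2 / (2 * ε) = (ε / 2) * s ^ 2 - s * C + C ^ 2 / (2 * ε) := by
            field_simp
            ring
          linarith
        have h4 : C ^ 2 / (2 * ε) ≤ C * (2 * C / ε + 1) := by
          have e : C * (2 * C / ε + 1) - C ^ 2 / (2 * ε) = 3 * C ^ 2 / (2 * ε) + C := by
            field_simp
            ring
          have : 0 ≤ 3 * C ^ 2 / (2 * ε) + C := by positivity
          linarith
        have h5 : (ε / 2) * s ^ 2 ≤ (ε / 2) * x := by gcongr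
        linarith

end Pool.Agent.PNTheta
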